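import Pool.Agent.H72.UV.Targets
import Pool.Agent.H72.UV.Basic

/-!
# UV, module A: infinitely many types give `Many`
-/

set_option autoImplicit false

open Set Filter Topology

namespace Pool.Agent.H34.UV

open Pool.Agent.H72.UV

section

variable {M C : Type}

/-- the combined tuple -/
noncomputable def mkT {n : ℕ} (I0 : Fin n → Prop) (kap : {i // I0 i} → M) (s : ℕ → Fin n → M)
    (w : {i // ¬ I0 i} → ℕ × {i // ¬ I0 i}) : Fin n → M := by
  classical
  exact fun i => if hi : I0 i then kap ⟨i, hi⟩ else s (w ⟨i, hi⟩).1 (w ⟨i, hi⟩).2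

/-- step 1: infinitely many types of injective tuples -/
lemma inj_types (c : Str M C) (n : ℕ)
    (hn : ¬ (range fun x : Fin n → M => fun l : List (Fin n) => c (l.map x)).Finite)
    (hmin : ∀ m < n, (range fun x : Fin m → M => fun l : List (Fin m) => c (l.map x)).Finite) :
    ((fun x : Fin n → M => fun l : List (Fin n) => c (l.map x)) ''
      {x | Function.Injective x}).Infinite := by
  classical
  intro h
  apply hn
  have h2 : (⋃ m : Fin n, ⋃ π : Fin n → Fin m,
      (fun t : List (Fin m) → C => fun l : List (Fin n) => t (l.map π)) ''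
        (range fun x : Fin m → M => fun l : List (Fin m) => c (l.map x))).Finite :=
    finite_iUnion fun m => finite_iUnion fun π => (hmin m m.2).image _
  refine (h.union h2).subset ?_
  rintro _ ⟨x, rfl⟩
  by_cases hx : Function.Injective x
  · left
    exact ⟨x, hx, rfl⟩
  · right
    set R : Finset M := Finset.univ.image x with hR
    have hRc : R.card < n := by
      have h1 : R.card ≤ n := by
        have := Finset.card_image_le (s := (Finset.univ : Finset (Fin n))) (f := x)
        simpa using this
      refine lt_of_le_of_ne h1 fun h2 => hx ?_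
      have h3 : (Finset.univ.image x).card = (Finset.univ : Finset (Fin n)).card := by
        rw [Finset.card_univ, Fintype.card_fin]
        exact h2
      rw [Finset.card_image_iff] at h3
      intro i j hij
      exact h3 (by simp) (by simp) hij
    have hmem : ∀ i, x i ∈ R := fun i => Finset.mem_image_of_mem _ (Finset.mem_univ i)
    simp only [mem_iUnion]
    refine ⟨⟨R.card, hRc⟩, fun i => R.equivFin ⟨x i, hmem i⟩, _,
      ⟨fun j => (R.equivFin.symm j : M), rfl⟩, ?_⟩
    funext l
    simp only [List.map_map]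
    congr 1
    apply List.map_congr_left
    intro i _
    simp

/-- step 2: a sequence with the required disjointness -/
lemma delta {n : ℕ} (xs : ℕ → Fin n → M) (I0 : Fin n → Prop) (kap : {i // I0 i} → M)
    (h0 : ∀ i : {i // I0 i}, ∀ᶠ j in (hyperfilter ℕ : Filter ℕ), xs j i = kap i)
    (h1 : ∀ i : {i // ¬ I0 i}, ∀ y, ∀ᶠ j in (hyperfilter ℕ : Filter ℕ), xs j i ≠ y) :
    ∃ f : ℕ → ℕ, (∀ m, ∀ i : {i // I0 i}, xs (f m) i = kap i) ∧
      ∀ m m', m ≠ m' → f m ≠ f m' ∧
        ∀ i i' : {i // ¬ I0 i}, xs (f m) i ≠ xs (f m') i' := by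
  classical
  obtain ⟨f, hf1, hf2⟩ := exists_seq_of_forall_finset_exists
    (P := fun j => ∀ i : {i // I0 i}, xs j i = kap i)
    (r := fun j j' => j ≠ j' ∧ ∀ i i' : {i // ¬ I0 i}, xs j i ≠ xs j' i') (by
      intro s _
      have e1 : ∀ᶠ j in (hyperfilter ℕ : Filter ℕ), ∀ i : {i // I0 i}, xs j i = kap i :=
        eventually_all.2 h0
      have e2 : ∀ᶠ j in (hyperfilter ℕ : Filter ℕ), ∀ x ∈ s, x ≠ j ∧
          ∀ i i' : {i // ¬ I0 i}, xs x i ≠ xs j i' := by
        rw [Finset.eventually_all]
        intro x _
        refine Eventually.and ?_ ?_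
        · have h3 : ({x} : Set ℕ)ᶜ ∈ hyperfilter ℕ := (Set.finite_singleton x).compl_mem_hyperfilter
          filter_upwards [h3] with j hj
          exact fun h => hj h.symm
        · rw [eventually_all]
          intro i
          rw [eventually_all]
          intro i'
          filter_upwards [h1 i' (xs x i)] with j hj
          exact fun h => hj h.symm
      obtain ⟨j, hj1, hj2⟩ := (e1.and e2).exists
      exact ⟨j, hj1, hj2⟩)
  refine ⟨f, hf1, ?_⟩
  intro m m' hmm
  rcases lt_or_gt_of_ne hmm with h | h
  · exact hf2 m m' h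
  · have h3 := hf2 m' m h
    exact ⟨fun h4 => h3.1 h4.symm, fun i i' h4 => h3.2 i' i h4.symm⟩

/-- step 3: Ramsey -/
lemma ramsey_step (hram : T_RAM) (c : Str M C) {n : ℕ} (I0 : Fin n → Prop)
    (kap : {i // I0 i} → M) (s : ℕ → Fin n → M)
    (hs : ∀ m m', (∀ l : List (Fin n), c (l.map (s m)) = c (l.map (s m'))) → m = m') :
    ∃ g : ℕ → ℕ, StrictMono g ∧ ∀ (w : {i // ¬ I0 i} → ℕ × {i // ¬ I0 i}) (k : ℕ),
      (∀ i, (w i).1 ≠ k) →
      ¬ ∀ l : List (Fin n), c (l.map (mkT I0 kap (s ∘ g) w)) = c (l.map (s (g k))) := by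
  classical
  set J := {i // ¬ I0 i} with hJ
  set D := Fintype.card J + 1 with hD
  set col : (Fin D → ℕ) → Set ((J → Fin D × J) × Fin D) := fun a =>
    {q | (∀ i, (q.1 i).1 ≠ q.2) ∧ ∀ l : List (Fin n),
      c (l.map (mkT I0 kap s fun i => (a (q.1 i).1, (q.1 i).2))) = c (l.map (s (a q.2)))} with hcol
  obtain ⟨g, hg, v, hv⟩ := hram D _ inferInstance col
  have hvq : ∀ q, q ∉ v := by
    intro q hq
    set t1 : Fin D → ℕ := fun i => 2 * i with ht1
    set t2 : Fin D → ℕ := fun i => if i = q.2 then 2 * i + 1 else 2 * i with ht2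
    have m1 : StrictMono t1 := by
      intro i j hij
      have : (i : ℕ) < j := hij
      simp only [ht1]
      omega
    have m2 : StrictMono t2 := by
      intro i j hij
      have : (i : ℕ) < j := hij
      simp only [ht2]
      split_ifs <;> omega
    have h1 : q ∈ col (g ∘ t1) := by rw [hv t1 m1]; exact hq
    have h2 : q ∈ col (g ∘ t2) := by rw [hv t2 m2]; exact hq
    have h3 : ∀ l : List (Fin n), c (l.map (s (g (t1 q.2)))) = c (l.map (s (g (t2 q.2)))) := by
      intro l
      have h4 := h1.2 l
      have h5 := h2.2 l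
      have h6 : (fun i => ((g ∘ t1) (q.1 i).1, (q.1 i).2))
          = fun i => ((g ∘ t2) (q.1 i).1, (q.1 i).2) := by
        funext i
        have : t1 (q.1 i).1 = t2 (q.1 i).1 := by
          simp only [ht1, ht2]
          rw [if_neg (h1.1 i)]
        simp only [Function.comp_apply, this]
      rw [h6] at h4
      exact h4.symm.trans h5
    have h7 := hg.injective (hs _ _ h3)
    simp only [ht1, ht2] at h7
    simp at h7
  refine ⟨g, hg, ?_⟩
  intro w k hwk hcon
  set S : Finset ℕ := insert k (Finset.univ.image fun i => (w i).1) with hS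
  have hSc : S.card ≤ D := by
    refine (Finset.card_insert_le _ _).trans ?_
    rw [hD]
    refine Nat.add_le_add_right ?_ 1
    have := Finset.card_image_le (s := (Finset.univ : Finset J)) (f := fun i => (w i).1)
    rwa [Finset.card_univ] at this
  obtain ⟨T, hST, hTc⟩ := Infinite.exists_superset_card_eq S D hSc
  have hrange : ∀ a ∈ T, ∃ p : Fin D, T.orderEmbOfFin hTc p = a := by
    intro a ha
    have h1 : a ∈ Set.range (T.orderEmbOfFin hTc) := by
      rw [Finset.range_orderEmbOfFin]
      exact ha
    exact h1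
  obtain ⟨p, hp⟩ := hrange k (hST (Finset.mem_insert_self _ _))
  have hw : ∀ i : J, ∃ p : Fin D, T.orderEmbOfFin hTc p = (w i).1 := fun i =>
    hrange _ (hST (Finset.mem_insert_of_mem (Finset.mem_image_of_mem _ (Finset.mem_univ i))))
  choose π hπ using hw
  apply hvq (fun i => (π i, (w i).2), p)
  rw [← hv (T.orderEmbOfFin hTc) (T.orderEmbOfFin hTc).strictMono]
  refine ⟨?_, ?_⟩
  · intro i h
    have h1 : π i = p := h
    apply hwk i
    rw [← hπ i, h1, hp]
  · intro l
    have h2 := hcon l
    have h3 : (fun i => ((g ∘ (T.orderEmbOfFin hTc)) (π i), (w i).2))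
        = fun i => (g (w i).1, (w i).2) := by
      funext i
      simp only [Function.comp_apply]
      rw [hπ i]
    show c (l.map (mkT I0 kap s fun i => ((g ∘ (T.orderEmbOfFin hTc)) (π i), (w i).2))) =
      c (l.map (s (g (T.orderEmbOfFin hTc p))))
    rw [h3, hp]
    exact h2

end

theorem A (hram : T_RAM) : T_A := by
  classical
  intro M C c hmany
  by_contra hfin
  have hex : ∃ n, ¬ (range fun x : Fin n → M => fun l : List (Fin n) => c (l.map x)).Finite := by
    by_contra h
    apply hfin
    intro n
    by_contra hn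
    exact h ⟨n, hn⟩
  set n := Nat.find hex with hndef
  have hn := Nat.find_spec hex
  have hmin : ∀ m < n, (range fun x : Fin m → M => fun l : List (Fin m) => c (l.map x)).Finite :=
    fun m hm => not_not.1 (Nat.find_min hex hm)
  have hinf := inj_types c n hn hmin
  obtain ⟨xs, hxs1, hxs2⟩ : ∃ xs : ℕ → Fin n → M, (∀ j, Function.Injective (xs j)) ∧
      ∀ j j', (∀ l : List (Fin n), c (l.map (xs j)) = c (l.map (xs j'))) → j = j' := by
    have h1 := fun j => (hinf.natEmbedding _ j).2
    choose xs hx1 hx2 using h1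
    refine ⟨xs, hx1, fun j j' h => ?_⟩
    apply (hinf.natEmbedding _).injective
    apply Subtype.ext
    rw [← hx2 j, ← hx2 j']
    funext l
    exact h l
  set I0 : Fin n → Prop := fun i => ∃ y, ∀ᶠ j in (hyperfilter ℕ : Filter ℕ), xs j i = y with hI0
  have hk : ∀ i : {i // I0 i}, ∃ y, ∀ᶠ j in (hyperfilter ℕ : Filter ℕ), xs j i = y := fun i => i.2
  choose kap hkap using hk
  have hfree : ∀ i : {i // ¬ I0 i}, ∀ y, ∀ᶠ j in (hyperfilter ℕ : Filter ℕ), xs j i ≠ y := by
    intro i y
    rw [Ultrafilter.eventually_not]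
    intro h
    exact i.2 ⟨y, h⟩
  obtain ⟨f, hf1, hf2⟩ := delta xs I0 kap hkap hfree
  obtain ⟨g, hg, hstar⟩ := ramsey_step hram c I0 kap (fun m => xs (f m)) (by
    intro m m' h
    by_contra hmm
    exact (hf2 m m' hmm).1 (hxs2 _ _ h))
  set s : ℕ → Fin n → M := fun m => xs (f (g m)) with hs
  have hs0 : ∀ m, ∀ i : {i // I0 i}, s m i = kap i := fun m i => hf1 (g m) i
  have hsinj : ∀ m, Function.Injective (s m) := fun m => hxs1 _
  have hsd : ∀ m m', m ≠ m' → ∀ i i' : {i // ¬ I0 i}, s m i ≠ s m' i' := by
    intro m m' hmm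
    exact (hf2 (g m) (g m') (fun h => hmm (hg.injective h))).2
  -- `I1` is nonempty
  obtain ⟨i1⟩ : Nonempty {i // ¬ I0 i} := by
    by_contra hne
    have h1 : ∀ i, I0 i := by
      intro i
      by_contra hi
      exact hne ⟨⟨i, hi⟩⟩
    have h2 : f 0 = f 1 := by
      apply hxs2
      intro l
      congr 2
      funext i
      have e0 := hf1 0 ⟨i, h1 i⟩
      have e1 := hf1 1 ⟨i, h1 i⟩
      exact e0.trans e1.symm
    exact (hf2 0 1 (by omega)).1 h2
  -- the witness
  apply hmany
  set A := {i // I0 i} ⊕ ℕ × {i // ¬ I0 i} with hA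
  set θ : A → M := Sum.elim kap (fun p => s p.1 p.2) with hθ
  have hθi : Function.Injective θ := by
    rintro (i | ⟨m, i⟩) (i' | ⟨m', i'⟩) h
    · have h1 : kap i = kap i' := h
      rw [← hs0 0, ← hs0 0] at h1
      rw [Subtype.ext (hsinj 0 h1)]
    · have h1 : kap i = s m' i' := h
      rw [← hs0 m' i] at h1
      have h2 := hsinj m' h1
      exact absurd i.2 (by rw [h2]; exact i'.2)
    · have h1 : s m i = kap i' := h
      rw [← hs0 m i'] at h1
      have h2 := hsinj m h1
      exact absurd i'.2 (by rw [← h2]; exact i.2)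
    · have h1 : s m i = s m' i' := h
      by_cases hmm : m = m'
      · subst hmm
        rw [Subtype.ext (hsinj m h1)]
      · exact absurd h1 (hsd m m' hmm i i')
  set e : Str A C := fun l => c (l.map θ) with he
  set U : (ℕ → Bool) → ℕ → Prop := fun x m => x (m / 2) = decide (m % 2 = 1) with hU
  set B : (ℕ → Bool) → Set A := fun x => {a | ∀ p, a = Sum.inr p → U x p.1} with hB
  have hUm : ∀ (x : ℕ → Bool) (j : ℕ), U x (2 * j + if x j then 1 else 0) := by
    intro x j
    simp only [hU]
    cases h : x j
    · have h1 : (2 * j + 0) / 2 = j := by omega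
      have h2 : (2 * j + 0) % 2 = 0 := by omega
      simp [h]
    · have h1 : (2 * j + 1) / 2 = j := by omega
      have h2 : (2 * j + 1) % 2 = 1 := by omega
      simp [h1, h2, h]
  refine ⟨A, inferInstance, e, Finset.univ.image Sum.inl, B, below_self_comap hθi, ?_, ?_, ?_, ?_⟩
  · intro a
    rcases a with i | ⟨m, i⟩
    · have : {x | (Sum.inl i : A) ∈ B x} = univ := by
        refine eq_univ_of_forall fun x p hp => ?_
        exact absurd hp (by simp)
      rw [this]
      exact MeasurableSet.univ
    · have : {x | (Sum.inr (m, i) : A) ∈ B x} = {x | x (m / 2) = decide (m % 2 = 1)} := by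
        ext x
        simp only [hB, mem_ofPred_eq]
        constructor
        · intro h
          exact h (m, i) rfl
        · intro h p hp
          rw [← Sum.inr.inj hp]
          exact h
      rw [this]
      exact (measurable_pi_apply (m / 2)) (measurableSet_singleton _)
  · intro x
    refine Set.infinite_of_injective_forall_mem
      (f := fun j : ℕ => (Sum.inr (2 * j + if x j then 1 else 0, i1) : A)) ?_ ?_
    · intro j j' h
      have h1 := congrArg Prod.fst (Sum.inr.inj h)
      simp only at h1
      split_ifs at h1 <;> omega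
    · intro j p hp
      rw [← Sum.inr.inj hp]
      exact hUm x j
  · intro x a ha
    rw [Finset.mem_coe, Finset.mem_image] at ha
    obtain ⟨i, _, rfl⟩ := ha
    intro p hp
    exact absurd hp (by simp)
  · intro x
    refine (Set.countable_singleton x).mono ?_
    rintro y ⟨F, ⟨hF1, hF2⟩, hF3⟩
    -- all indices used by `x` are used by `y`
    have key : ∀ m, U x m → U y m := by
      intro m hm
      have hin : ∀ i : {i // ¬ I0 i}, (Sum.inr (m, i) : A) ∈ B x := by
        intro i p hp
        rw [← Sum.inr.inj hp]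
        exact hm
      have hinl : ∀ i : {i // I0 i}, (Sum.inl i : A) ∈ B x := by
        intro i p hp
        exact absurd hp (by simp)
      have hw : ∀ i : {i // ¬ I0 i}, ∃ p, F (Sum.inr (m, i)) = Sum.inr p := by
        intro i
        rcases hFi : F (Sum.inr (m, i)) with i' | p
        · have h1 : F (Sum.inl i') = Sum.inl i' :=
            hF3 _ (Finset.mem_image_of_mem _ (Finset.mem_univ _))
          have h2 := hF1.injOn (hin i) (hinl i') (hFi.trans h1.symm)
          exact absurd h2 (by simp)
        · exact ⟨p, rfl⟩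
      choose w hw using hw
      have hwy : ∀ i, U y (w i).1 := by
        intro i
        have h1 : F (Sum.inr (m, i)) ∈ B y := hF1.mapsTo (hin i)
        exact h1 (w i) (hw i)
      by_contra hny
      refine hstar w m (fun i h => hny (h ▸ hwy i)) ?_
      intro l
      set ι : Fin n → A := fun i => if hi : I0 i then Sum.inl ⟨i, hi⟩ else Sum.inr (m, ⟨i, hi⟩)
        with hι
      have h1 := hF2 (l.map ι) (by
        intro a ha
        obtain ⟨i, _, rfl⟩ := List.mem_map.1 ha
        simp only [hι]
        by_cases hi : I0 i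
        · rw [dif_pos hi]; exact hinl _
        · rw [dif_neg hi]; exact hin _)
      have h2 : θ ∘ ι = s m := by
        funext i
        simp only [Function.comp_apply, hι]
        by_cases hi : I0 i
        · rw [dif_pos hi]
          exact (hs0 m ⟨i, hi⟩).symm
        · rw [dif_neg hi]
          rfl
      have h3 : θ ∘ F ∘ ι = mkT I0 kap s w := by
        funext i
        simp only [Function.comp_apply, hι, mkT]
        by_cases hi : I0 i
        · rw [dif_pos hi, dif_pos hi, hF3 _ (Finset.mem_image_of_mem _ (Finset.mem_univ _))]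
          rfl
        · rw [dif_neg hi, dif_neg hi, hw]
          rfl
      simp only [he, List.map_map] at h1
      rw [h2, h3] at h1
      exact h1
    rw [mem_singleton_iff]
    funext j
    have h1 := key _ (hUm x j)
    simp only [hU] at h1
    cases h : x j
    · rw [h] at h1
      simpa using h1
    · rw [h] at h1
      have h2 : (2 * j + 1) / 2 = j := by omega
      have h3 : (2 * j + 1) % 2 = 1 := by omega
      simpa [h2, h3] using h1

end Pool.Agent.H34.UV
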