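import Pool.Agent.H34.UV.OWN

/-!
# UV, module AR: arrays give `Many`
-/

set_option autoImplicit false

open Set Filter Topology

namespace Pool.Agent.H34.UV

open Pool.Agent.H72.UV

section

variable {k b a : ℕ} {C : Type}

/-- the named elements: the constants and the `b`-tuple of row `0` -/
def Kc : Fin k ⊕ Fin b → Arr k b a :=
  Sum.elim (fun y => Sum.inl y) (fun i => Sum.inr (0, Sum.inl i))

def En (n : ℕ) : Fin b → Arr k b a := fun i => Sum.inr (n, Sum.inl i)

def Xn (n j : ℕ) : Fin a → Arr k b a := fun t => Sum.inr (n, Sum.inr (j, t))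

def ev (w : Fin b → Arr k b a) (z : Fin a → Arr k b a) :
    (Fin k ⊕ Fin b) ⊕ (Fin b ⊕ Fin a) → Arr k b a := Sum.elim Kc (Sum.elim w z)

/-- the substructure with `f n` cells in row `n ≥ 1` -/
def BB (f : ℕ → ℕ) : Set (Arr k b a) :=
  {x | ∀ n j t, x = Sum.inr (n, Sum.inr (j, t)) → 1 ≤ n ∧ j < f n}

/-- the counted tuples -/
def ZZ (e : Str (Arr k b a) C) (f : ℕ → ℕ) (w : Fin b → Arr k b a) : Set (Fin a → Arr k b a) :=
  {z | Function.Injective z ∧ (∀ i, z i ∈ BB f) ∧ (∀ i q, z i ≠ Kc q) ∧ (∀ i j, z i ≠ w j) ∧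
    ∀ l : List ((Fin k ⊕ Fin b) ⊕ (Fin b ⊕ Fin a)),
      e (l.map (ev w z)) = e (l.map (ev (En 1) (Xn 1 0)))}

lemma zz_map {e : Str (Arr k b a) C} {f : ℕ → ℕ} {w : Fin b → Arr k b a} {z : Fin a → Arr k b a}
    (hz : z ∈ ZZ e f w) (φ : Arr k b a → Arr k b a) (h1 : ∀ l : List (Arr k b a), e (l.map φ) = e l)
    (h2 : Function.Injective φ) (h3 : ∀ q, φ (Kc q) = Kc q) (h4 : ∀ j, φ (w j) = w j)
    (h5 : ∀ i, φ (z i) ∈ BB f) : (fun i => φ (z i)) ∈ ZZ e f w := by
  obtain ⟨z1, z2, z3, z4, z5⟩ := hz
  refine ⟨fun i j h => z1 (h2 h), h5, ?_, ?_, ?_⟩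
  · intro i q h
    rw [← h3 q] at h
    exact z3 i q (h2 h)
  · intro i j h
    rw [← h4 j] at h
    exact z4 i j (h2 h)
  · intro l
    rw [← z5 l, ← h1 (l.map (ev w z)), List.map_map]
    congr 2
    funext x
    rcases x with q | j | i
    · exact (h3 q).symm
    · exact (h4 j).symm
    · rfl

lemma rowMap_inj {g : ℕ → ℕ} (hg : Function.Injective g) :
    Function.Injective (rowMap (k := k) (b := b) (a := a) g) := by
  rintro (x | ⟨r, x⟩) (y | ⟨s, y⟩) h
  · exact h
  · exact absurd h (by simp [rowMap])
  · exact absurd h (by simp [rowMap])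
  · have h1 : (g r, x) = (g s, y) := Sum.inr.inj h
    rw [Prod.mk.injEq] at h1
    rw [hg h1.1, h1.2]

lemma cellMap_inj {g : ℕ → ℕ → ℕ} (hg : ∀ n, Function.Injective (g n)) :
    Function.Injective (cellMap (k := k) (b := b) (a := a) g) := by
  rintro (x | ⟨r, x | ⟨j, x⟩⟩) (y | ⟨s, y | ⟨j', y⟩⟩) h
  · exact h
  · exact absurd h (by simp [cellMap])
  · exact absurd h (by simp [cellMap])
  · exact absurd h (by simp [cellMap])
  · exact h
  · exact absurd h (by simp [cellMap])
  · exact absurd h (by simp [cellMap])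
  · exact absurd h (by simp [cellMap])
  · have h1 : ((r, Sum.inr (g r j, x)) : ℕ × (Fin b ⊕ ℕ × Fin a)) = (s, Sum.inr (g s j', y)) :=
      Sum.inr.inj h
    rw [Prod.mk.injEq] at h1
    obtain ⟨rfl, h1⟩ := h1
    have h2 := Sum.inr.inj h1
    rw [Prod.mk.injEq] at h2
    rw [hg r h2.1, h2.2]

/-- exchange two cells in row `r` -/
def gsw (r j j' : ℕ) : ℕ → ℕ → ℕ := fun s => if s = r then Equiv.swap j j' else id

lemma gsw_self (r j j' : ℕ) : gsw r j j' r = Equiv.swap j j' := if_pos rfl

lemma gsw_ne {r s : ℕ} (j j' : ℕ) (h : s ≠ r) : gsw r j j' s = id := if_neg h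

lemma gsw_inj (r j j' s : ℕ) : Function.Injective (gsw r j j' s) := by
  by_cases h : s = r
  · subst h
    rw [gsw_self]
    exact Equiv.injective _
  · rw [gsw_ne j j' h]
    exact Function.injective_id

lemma X_mem {e : Str (Arr k b a) C} (hinv : ArrInv e) {f : ℕ → ℕ} {n j : ℕ} (hn : 1 ≤ n)
    (hj : j < f n) : Xn n j ∈ ZZ e f (En n) := by
  refine ⟨?_, ?_, ?_, ?_, ?_⟩
  · intro t t' h
    have h1 := Sum.inr.inj h
    rw [Prod.mk.injEq] at h1
    have h2 := Sum.inr.inj h1.2
    rw [Prod.mk.injEq] at h2
    exact h2.2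
  · intro t n' j' t' h
    have h1 := Sum.inr.inj h
    rw [Prod.mk.injEq] at h1
    have h2 := Sum.inr.inj h1.2
    rw [Prod.mk.injEq] at h2
    rw [← h1.1, ← h2.1]
    exact ⟨hn, hj⟩
  · rintro t (y | i) h
    · exact absurd h (by simp [Xn, Kc])
    · exact absurd h (by simp [Xn, Kc])
  · intro t i h
    exact absurd h (by simp [Xn, En])
  · intro l
    rw [← hinv.1 (l.map (ev (En 1) (Xn 1 0))) (Equiv.swap 1 n) (Equiv.injective _),
      ← hinv.2 ((l.map (ev (En 1) (Xn 1 0))).map (rowMap (Equiv.swap 1 n)))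
        (fun _ => Equiv.swap 0 j) (fun _ => Equiv.injective _), List.map_map,
      List.map_map]
    congr 2
    funext x
    rcases x with (y | i) | i | t
    · rfl
    · show (Sum.inr (0, Sum.inl i) : Arr k b a) = Sum.inr (Equiv.swap 1 n 0, Sum.inl i)
      rw [Equiv.swap_apply_of_ne_of_ne (by omega) (by omega)]
    · show (Sum.inr (n, Sum.inl i) : Arr k b a) = Sum.inr (Equiv.swap 1 n 1, Sum.inl i)
      rw [Equiv.swap_apply_left]
    · show (Sum.inr (n, Sum.inr (j, t)) : Arr k b a)
        = Sum.inr (Equiv.swap 1 n 1, Sum.inr (Equiv.swap 0 j 0, t))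
      rw [Equiv.swap_apply_left, Equiv.swap_apply_left]

/-- bounding the number of counted tuples -/
lemma zz_le {e : Str (Arr k b a) C} {f : ℕ → ℕ} {w : Fin b → Arr k b a}
    (A : Finset (Arr k b a)) (hA : ∀ z ∈ ZZ e f w, ∀ i, z i ∈ A) :
    (ZZ e f w).Finite ∧ (ZZ e f w).ncard ≤ A.card ^ a := by
  classical
  have h1 : ZZ e f w ⊆ ((Fintype.piFinset fun _ : Fin a => A : Finset (Fin a → Arr k b a)) :
      Set (Fin a → Arr k b a)) := by
    intro z hz
    rw [Finset.mem_coe, Fintype.mem_piFinset]
    exact hA z hz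
  have hfin : (ZZ e f w).Finite := (Finset.finite_toSet _).subset h1
  refine ⟨hfin, ?_⟩
  have h2 := Set.ncard_le_ncard h1 (Finset.finite_toSet _)
  rw [ncard_coe_finset, Fintype.card_piFinset, Finset.prod_const, Finset.card_univ,
    Fintype.card_fin] at h2
  exact h2

/-- the counting for the `b`-tuples of rows -/
lemma zz_own {M : Type} {c : Str M C} (hmin : ∀ a' < a, ¬ ArrCfg c a') {e : Str (Arr k b a) C}
    (hbe : Below e c) (hinv : ArrInv e) (l0 : List (Fin k ⊕ (Fin b ⊕ Fin a)))
    (hl0 : e (l0.map (own 0)) ≠ e (l0.map (own 1))) (f : ℕ → ℕ) {n : ℕ} (hn : 1 ≤ n) (ha : 1 ≤ a) :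
    (ZZ e f (En n)).Finite ∧ f n ≤ (ZZ e f (En n)).ncard ∧
      (ZZ e f (En n)).ncard ≤ (f n * a) ^ a := by
  classical
  set A : Finset (Arr k b a) := ((Finset.range (f n)) ×ˢ (Finset.univ : Finset (Fin a))).image
    (fun p => (Sum.inr (n, Sum.inr p) : Arr k b a)) with hA
  have hAc : A.card ≤ f n * a := by
    refine Finset.card_image_le.trans ?_
    rw [Finset.card_product, Finset.card_range, Finset.card_univ, Fintype.card_fin]
  have hsub : ∀ z ∈ ZZ e f (En n), ∀ i, z i ∈ A := by
    rintro z ⟨z1, z2, z3, z4, z5⟩ i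
    have e1 : e (l0.map (evz n z)) = e (l0.map (own 0)) := by
      have h1 := z5 (l0.map fun x => Sum.elim (fun y => Sum.inl (Sum.inl y)) (fun x => Sum.inr x) x)
      rw [List.map_map, List.map_map] at h1
      have h2 : (ev (En n) z) ∘ (fun x : Fin k ⊕ (Fin b ⊕ Fin a) =>
          Sum.elim (fun y => Sum.inl (Sum.inl y)) (fun x => Sum.inr x) x) = evz n z := by
        funext x
        rcases x with y | i | i <;> rfl
      have h3 : rowMap (Equiv.swap 0 1) ∘ (ev (En 1) (Xn 1 0)) ∘
          (fun x : Fin k ⊕ (Fin b ⊕ Fin a) =>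
          Sum.elim (fun y => Sum.inl (Sum.inl y)) (fun x => Sum.inr x) x)
          = (own 0 : _ → Arr k b a) := by
        funext x
        rcases x with y | i | i
        · rfl
        · show (Sum.inr (Equiv.swap 0 1 1, Sum.inl i) : Arr k b a) = Sum.inr (0, Sum.inl i)
          rw [Equiv.swap_apply_right]
        · show (Sum.inr (Equiv.swap 0 1 1, Sum.inr (0, i)) : Arr k b a) = Sum.inr (0, Sum.inr (0, i))
          rw [Equiv.swap_apply_right]
      rw [h2] at h1
      rw [h1, ← hinv.1 _ (Equiv.swap 0 1) (Equiv.injective _), List.map_map, h3]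
    have e2 : e (l0.map (evz 0 z)) = e (l0.map (own 1)) := by
      have h1 := z5 (l0.map fun x => Sum.elim (fun y => Sum.inl (Sum.inl y))
        (Sum.elim (fun i => Sum.inl (Sum.inr i)) (fun i => Sum.inr (Sum.inr i))) x)
      rw [List.map_map, List.map_map] at h1
      have h2 : (ev (En n) z) ∘ (fun x : Fin k ⊕ (Fin b ⊕ Fin a) =>
          Sum.elim (fun y => Sum.inl (Sum.inl y))
        (Sum.elim (fun i => Sum.inl (Sum.inr i)) (fun i => Sum.inr (Sum.inr i))) x) = evz 0 z := by
        funext x
        rcases x with y | i | i <;> rfl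
      have h3 : (ev (En 1) (Xn 1 0)) ∘ (fun x : Fin k ⊕ (Fin b ⊕ Fin a) =>
          Sum.elim (fun y => Sum.inl (Sum.inl y))
        (Sum.elim (fun i => Sum.inl (Sum.inr i)) (fun i => Sum.inr (Sum.inr i))) x)
          = (own 1 : _ → Arr k b a) := by
        funext x
        rcases x with y | i | i <;> rfl
      rw [h2, h3] at h1
      exact h1
    have hrow0 : ∀ i (y : Fin b ⊕ ℕ × Fin a), z i ≠ Sum.inr (0, y) := by
      intro i y h
      rcases y with y | ⟨j, t⟩
      · exact z3 i (Sum.inr y) h
      · have := (z2 i 0 j t h).1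
        omega
    obtain ⟨j, t, hjt⟩ := OWN M C c a hmin k b e hbe hinv l0 n 0 z (by omega) z1 hrow0
      (fun i j => z4 i j) (by rw [e1, e2]; exact hl0) i
    rw [hjt, hA, Finset.mem_image]
    refine ⟨(j, t), ?_, rfl⟩
    rw [Finset.mem_product, Finset.mem_range]
    exact ⟨(z2 i n j t hjt).2, Finset.mem_univ t⟩
  obtain ⟨hfin, hle⟩ := zz_le A hsub
  refine ⟨hfin, ?_, hle.trans (Nat.pow_le_pow_left hAc a)⟩
  have h1 : (((Finset.range (f n)).image (fun j => (Xn n j : Fin a → Arr k b a)) :
      Finset (Fin a → Arr k b a)) : Set (Fin a → Arr k b a)) ⊆ ZZ e f (En n) := by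
    intro z hz
    rw [Finset.mem_coe, Finset.mem_image] at hz
    obtain ⟨j, hj, rfl⟩ := hz
    exact X_mem hinv hn (Finset.mem_range.1 hj)
  have h2 := Set.ncard_le_ncard h1 hfin
  rw [ncard_coe_finset, Finset.card_image_of_injective, Finset.card_range] at h2
  · exact h2
  · intro j j' h
    have h3 := Sum.inr.inj (congrFun h ⟨0, ha⟩)
    rw [Prod.mk.injEq] at h3
    have h4 := Sum.inr.inj h3.2
    rw [Prod.mk.injEq] at h4
    exact h4.1

/-- the counting for arbitrary tuples -/
lemma zz_gen {e : Str (Arr k b a) C} (hinv : ArrInv e) {f : ℕ → ℕ} (hf : StrictMono f)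
    {w : Fin b → Arr k b a} (hw : ∀ i, w i ∈ BB f) (hwK : ∀ i q, w i ≠ Kc q)
    (hfin : (ZZ e f w).Finite) :
    (ZZ e f w).ncard ≤ (b * b + b * a) ^ a ∨ ∃ r, 1 ≤ r ∧ f r ≤ (ZZ e f w).ncard + b ∧
      (ZZ e f w).ncard ≤ (b * b + b * a + (f r + 1) * f r * a) ^ a := by
  classical
  set Rw : Finset ℕ := Finset.univ.image fun i => rowOf (w i) with hRw
  have hRwc : Rw.card ≤ b := by
    have := Finset.card_image_le (s := (Finset.univ : Finset (Fin b))) (f := fun i => rowOf (w i))
    rwa [Finset.card_univ, Fintype.card_fin] at this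
  -- cells used by `w`
  set cellOf : Arr k b a → ℕ × ℕ := fun x => Sum.elim (fun _ => (0, 0))
    (fun p => (p.1, Sum.elim (fun _ => 0) (fun q => q.1) p.2)) x with hcellOf
  set Uw : Finset (ℕ × ℕ) := Finset.univ.image fun i => cellOf (w i) with hUw
  have hUwc : Uw.card ≤ b := by
    have := Finset.card_image_le (s := (Finset.univ : Finset (Fin b))) (f := fun i => cellOf (w i))
    rwa [Finset.card_univ, Fintype.card_fin] at this
  have hUw2 : ∀ i r j t, w i = Sum.inr (r, Sum.inr (j, t)) → (r, j) ∈ Uw := by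
    intro i r j t h
    have : cellOf (w i) = (r, j) := by rw [h]; rfl
    rw [← this]
    exact Finset.mem_image_of_mem _ (Finset.mem_univ i)
  have hRw2 : ∀ i r x, w i = Sum.inr (r, x) → r ∈ Rw := by
    intro i r x h
    have : rowOf (w i) = r := by rw [h]; rfl
    rw [← this]
    exact Finset.mem_image_of_mem _ (Finset.mem_univ i)
  -- rows of counted tuples
  have hrows : ∀ z ∈ ZZ e f w, ∀ i r x, z i = Sum.inr (r, x) → r ∈ Rw := by
    intro z hz i r x hi
    by_contra hr
    obtain ⟨N, hN1, hN2, hN3⟩ : ∃ N, r < N ∧ (∀ j, rowOf (w j) < N) ∧ ∀ j, rowOf (z j) < N := by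
      refine ⟨r + (∑ j, rowOf (w j)) + (∑ j, rowOf (z j)) + 1, by omega, fun j => ?_, fun j => ?_⟩
      · have := Finset.single_le_sum (f := fun j => rowOf (w j)) (fun _ _ => Nat.zero_le _)
          (Finset.mem_univ j)
        omega
      · have := Finset.single_le_sum (f := fun j => rowOf (z j)) (fun _ _ => Nat.zero_le _)
          (Finset.mem_univ j)
        omega
    have hr1 : r ≠ 0 := by
      rintro rfl
      rcases x with x | ⟨j, t⟩
      · exact hz.2.2.1 i (Sum.inr x) hi
      · have := (hz.2.1 i 0 j t hi).1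
        omega
    have hmem : ∀ m, (fun j => rowMap (Equiv.swap r (N + m)) (z j)) ∈ ZZ e f w := by
      intro m
      refine zz_map hz _ (fun l => hinv.1 l _ (Equiv.injective _))
        (rowMap_inj (Equiv.injective _)) ?_ ?_ ?_
      · rintro (y | i)
        · rfl
        · show (Sum.inr (Equiv.swap r (N + m) 0, Sum.inl i) : Arr k b a) = _
          rw [Equiv.swap_apply_of_ne_of_ne (by omega) (by omega)]
          rfl
      · intro j
        rcases hj : w j with y | ⟨s, y⟩
        · rfl
        · show (Sum.inr (Equiv.swap r (N + m) s, y) : Arr k b a) = _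
          have h1 := hN2 j
          rw [hj] at h1
          have h2 : s < N := h1
          have h3 : s ≠ r := by
            rintro rfl
            exact hr (hRw2 j _ _ hj)
          rw [Equiv.swap_apply_of_ne_of_ne h3 (by omega)]
      · intro j n' j' t' h
        rcases hj : z j with y | ⟨s, y⟩
        · rw [hj] at h
          exact absurd h (by simp [rowMap])
        · rw [hj] at h
          have h1 : (Equiv.swap r (N + m) s, y) = (n', Sum.inr (j', t')) := Sum.inr.inj h
          rw [Prod.mk.injEq] at h1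
          obtain ⟨h1, rfl⟩ := h1
          have h2 := hz.2.1 j s j' t' hj
          have h3 : s < N := by
            have h4 := hN3 j
            rw [hj] at h4
            exact h4
          by_cases hs : s = r
          · subst hs
            rw [Equiv.swap_apply_left] at h1
            subst h1
            exact ⟨by omega, h2.2.trans_le (hf.monotone (by omega))⟩
          · rw [Equiv.swap_apply_of_ne_of_ne hs (by omega)] at h1
            subst h1
            exact h2
    have hinj : Function.Injective (fun m => (fun j => rowMap (Equiv.swap r (N + m)) (z j) :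
        Fin a → Arr k b a)) := by
      intro m m' h
      have h1 := congrFun h i
      simp only [hi] at h1
      have h2 : (Equiv.swap r (N + m) r, x) = (Equiv.swap r (N + m') r, x) := Sum.inr.inj h1
      rw [Equiv.swap_apply_left, Equiv.swap_apply_left, Prod.mk.injEq] at h2
      omega
    exact (Set.infinite_of_injective_forall_mem hinj hmem) hfin
  have hnotinl : ∀ z ∈ ZZ e f w, ∀ i y, z i ≠ Sum.inl y := fun z hz i y h =>
    hz.2.2.1 i (Sum.inl y) h
  -- free cells
  have hfree : ∀ z ∈ ZZ e f w, ∀ i r j t, z i = Sum.inr (r, Sum.inr (j, t)) → (r, j) ∉ Uw →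
      f r ≤ (ZZ e f w).ncard + b := by
    intro z hz i r j t hi hrj
    set J : Finset ℕ := (Finset.range (f r)).filter fun j' => (r, j') ∉ Uw with hJ
    have hJc : f r ≤ J.card + b := by
      have h1 : (Finset.range (f r)).card = J.card +
          ((Finset.range (f r)).filter fun j' => ¬ (r, j') ∉ Uw).card :=
        (Finset.card_filter_add_card_filter_not _).symm
      have h2 : ((Finset.range (f r)).filter fun j' => ¬ (r, j') ∉ Uw).card ≤ Uw.card := by
        apply Finset.card_le_card_of_injOn (fun j' => (r, j'))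
        · intro j' hj'
          rw [Finset.mem_coe, Finset.mem_filter, not_not] at hj'
          exact hj'.2
        · intro j1 _ j2 _ h
          exact (Prod.mk.inj h).2
      rw [Finset.card_range] at h1
      omega
    have hmem : ∀ j' ∈ J, (fun i => cellMap (gsw r j j') (z i)) ∈ ZZ e f w := by
      intro j' hj'
      rw [hJ, Finset.mem_filter, Finset.mem_range] at hj'
      refine zz_map hz (cellMap (gsw r j j')) (fun l => hinv.2 l _ (gsw_inj r j j'))
        (cellMap_inj (gsw_inj r j j')) ?_ ?_ ?_
      · rintro (y | i)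
        · rfl
        · rfl
      · intro i'
        rcases hw' : w i' with y | ⟨s, y | ⟨j1, t1⟩⟩
        · rfl
        · rfl
        · have h1 := hUw2 i' s j1 t1 hw'
          show (Sum.inr (s, Sum.inr (gsw r j j' s j1, t1)) : Arr k b a) = _
          by_cases hs : s = r
          · subst hs
            rw [gsw_self, Equiv.swap_apply_of_ne_of_ne]
            · rintro rfl
              exact hrj h1
            · rintro rfl
              exact hj'.2 h1
          · rw [gsw_ne j j' hs]
            rfl
      · intro i' n' j1 t1 h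
        rcases hz' : z i' with y | ⟨s, y | ⟨j2, t2⟩⟩
        · rw [hz'] at h
          exact absurd h (by simp [cellMap])
        · rw [hz'] at h
          exact absurd h (by simp [cellMap])
        · rw [hz'] at h
          have h1 : ((s, Sum.inr (gsw r j j' s j2, t2)) : ℕ × (Fin b ⊕ ℕ × Fin a))
              = (n', Sum.inr (j1, t1)) := Sum.inr.inj h
          rw [Prod.mk.injEq] at h1
          obtain ⟨rfl, h1⟩ := h1
          have h2 := Sum.inr.inj h1
          rw [Prod.mk.injEq] at h2
          have h3 := hz.2.1 i' s j2 t2 hz'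
          refine ⟨h3.1, ?_⟩
          by_cases hs : s = r
          · subst hs
            rw [gsw_self] at h2
            by_cases hj2 : j2 = j
            · subst hj2
              rw [Equiv.swap_apply_left] at h2
              rw [← h2.1]
              exact hj'.1
            · by_cases hj3 : j2 = j'
              · subst hj3
                rw [Equiv.swap_apply_right] at h2
                rw [← h2.1]
                exact (hz.2.1 i s j t hi).2
              · rw [Equiv.swap_apply_of_ne_of_ne hj2 hj3] at h2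
                rw [← h2.1]
                exact h3.2
          · rw [gsw_ne j j' hs] at h2
            rw [← h2.1]
            exact h3.2
    have h1 : ((J.image fun j' => (fun i => cellMap (gsw r j j') (z i) : Fin a → Arr k b a) :
        Finset (Fin a → Arr k b a)) : Set (Fin a → Arr k b a)) ⊆ ZZ e f w := by
      intro z' hz'
      rw [Finset.mem_coe, Finset.mem_image] at hz'
      obtain ⟨j', hj', rfl⟩ := hz'
      exact hmem j' hj'
    have h2 := Set.ncard_le_ncard h1 hfin
    rw [ncard_coe_finset, Finset.card_image_of_injective] at h2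
    · omega
    · intro j1 j2 h
      have h3 := congrFun h i
      simp only [hi] at h3
      have h4 : ((r, Sum.inr (gsw r j j1 r j, t)) : ℕ × (Fin b ⊕ ℕ × Fin a))
              = (r, Sum.inr (gsw r j j2 r j, t)) := Sum.inr.inj h3
      rw [gsw_self, gsw_self, Equiv.swap_apply_left, Equiv.swap_apply_left,
        Prod.mk.injEq] at h4
      have h5 := Sum.inr.inj h4.2
      rw [Prod.mk.injEq] at h5
      exact h5.1
  -- the finite sets
  set A1 : Finset (Arr k b a) := (Rw ×ˢ (Finset.univ : Finset (Fin b))).image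
    (fun p => (Sum.inr (p.1, Sum.inl p.2) : Arr k b a)) with hA1
  set A2 : Finset (Arr k b a) := (Uw ×ˢ (Finset.univ : Finset (Fin a))).image
    (fun p => (Sum.inr (p.1.1, Sum.inr (p.1.2, p.2)) : Arr k b a)) with hA2
  have hA1c : A1.card ≤ b * b := by
    refine Finset.card_image_le.trans ?_
    rw [Finset.card_product, Finset.card_univ, Fintype.card_fin]
    exact Nat.mul_le_mul_right b hRwc
  have hA2c : A2.card ≤ b * a := by
    refine Finset.card_image_le.trans ?_
    rw [Finset.card_product, Finset.card_univ, Fintype.card_fin]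
    exact Nat.mul_le_mul_right a hUwc
  have hm1 : ∀ z ∈ ZZ e f w, ∀ i r y, z i = Sum.inr (r, Sum.inl y) → z i ∈ A1 := by
    intro z hz i r y hi
    rw [hi, hA1, Finset.mem_image]
    exact ⟨(r, y), Finset.mem_product.2 ⟨hrows z hz i r _ hi, Finset.mem_univ y⟩, rfl⟩
  have hm2 : ∀ z ∈ ZZ e f w, ∀ i r j t, z i = Sum.inr (r, Sum.inr (j, t)) → (r, j) ∈ Uw →
      z i ∈ A2 := by
    intro z hz i r j t hi hu
    rw [hi, hA2, Finset.mem_image]
    exact ⟨((r, j), t), Finset.mem_product.2 ⟨hu, Finset.mem_univ t⟩, rfl⟩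
  set P : Finset ℕ := Rw.filter fun r => ∃ z ∈ ZZ e f w, ∃ i j t,
    z i = Sum.inr (r, Sum.inr (j, t)) ∧ (r, j) ∉ Uw with hP
  rcases P.eq_empty_or_nonempty with hPe | hPne
  · left
    have hA : ∀ z ∈ ZZ e f w, ∀ i, z i ∈ A1 ∪ A2 := by
      intro z hz i
      rw [Finset.mem_union]
      rcases hi : z i with y | ⟨r, y | ⟨j, t⟩⟩
      · exact absurd hi (hnotinl z hz i y)
      · left
        rw [← hi]
        exact hm1 z hz i r y hi
      · right
        rw [← hi]
        apply hm2 z hz i r j t hi
        by_contra hu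
        have : r ∈ P := by
          rw [hP, Finset.mem_filter]
          exact ⟨hrows z hz i r _ hi, z, hz, i, j, t, hi, hu⟩
        rw [hPe] at this
        exact absurd this (Finset.notMem_empty r)
    refine (zz_le _ hA).2.trans (Nat.pow_le_pow_left ?_ a)
    exact (Finset.card_union_le _ _).trans (Nat.add_le_add hA1c hA2c)
  · right
    set R := P.max' hPne with hR
    have hRP : R ∈ P := Finset.max'_mem P hPne
    obtain ⟨hRRw, z0, hz0, i0, j0, t0, hi0, hu0⟩ := Finset.mem_filter.1 hRP
    have hR1 : 1 ≤ R := (hz0.2.1 i0 R j0 t0 hi0).1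
    refine ⟨R, hR1, hfree z0 hz0 i0 R j0 t0 hi0 hu0, ?_⟩
    set A3 : Finset (Arr k b a) := ((Finset.range (R + 1) ×ˢ Finset.range (f R)) ×ˢ
      (Finset.univ : Finset (Fin a))).image
      (fun p => (Sum.inr (p.1.1, Sum.inr (p.1.2, p.2)) : Arr k b a)) with hA3
    have hA3c : A3.card ≤ (f R + 1) * f R * a := by
      refine Finset.card_image_le.trans ?_
      rw [Finset.card_product, Finset.card_product, Finset.card_univ, Fintype.card_fin,
        Finset.card_range, Finset.card_range]
      exact Nat.mul_le_mul_right a (Nat.mul_le_mul_right _ (Nat.add_le_add_right (hf.id_le R) 1))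
    have hA : ∀ z ∈ ZZ e f w, ∀ i, z i ∈ A1 ∪ A2 ∪ A3 := by
      intro z hz i
      rw [Finset.mem_union, Finset.mem_union]
      rcases hi : z i with y | ⟨r, y | ⟨j, t⟩⟩
      · exact absurd hi (hnotinl z hz i y)
      · left; left
        rw [← hi]
        exact hm1 z hz i r y hi
      · by_cases hu : (r, j) ∈ Uw
        · left; right
          rw [← hi]
          exact hm2 z hz i r j t hi hu
        · right
          have hrP : r ∈ P := by
            rw [hP, Finset.mem_filter]
            exact ⟨hrows z hz i r _ hi, z, hz, i, j, t, hi, hu⟩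
          have hrR : r ≤ R := Finset.le_max' P r hrP
          rw [hA3, Finset.mem_image]
          refine ⟨((r, j), t), ?_, rfl⟩
          rw [Finset.mem_product, Finset.mem_product, Finset.mem_range, Finset.mem_range]
          exact ⟨⟨Nat.lt_succ_of_le hrR, (hz.2.1 i r j t hi).2.trans_le (hf.monotone hrR)⟩,
            Finset.mem_univ t⟩
    refine (zz_le _ hA).2.trans (Nat.pow_le_pow_left ?_ a)
    exact (Finset.card_union_le _ _).trans (Nat.add_le_add
      ((Finset.card_union_le _ _).trans (Nat.add_le_add hA1c hA2c)) hA3c)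

/-- counting is invariant under isomorphisms over the named elements -/
lemma zz_iso {e : Str (Arr k b a) C} {f f' : ℕ → ℕ} {F : Arr k b a → Arr k b a}
    (hF : IsIso e F (BB f) (BB f')) (hK : ∀ q, F (Kc q) = Kc q) {w : Fin b → Arr k b a}
    (hw : ∀ i, w i ∈ BB f) : ZZ e f' (fun i => F (w i)) = (fun z i => F (z i)) '' ZZ e f w := by
  have hKB : ∀ q, (Kc q : Arr k b a) ∈ BB f := by
    rintro (y | i) n j t h
    · exact absurd h (by simp [Kc])
    · exact absurd h (by simp [Kc])
  have hev : ∀ z : Fin a → Arr k b a, (∀ i, z i ∈ BB f) →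
      ∀ l : List ((Fin k ⊕ Fin b) ⊕ (Fin b ⊕ Fin a)), e (l.map (ev (fun i => F (w i)) fun i => F (z i))) = e (l.map (ev w z)) := by
    intro z hz l
    rw [← hF.2 (l.map (ev w z)), List.map_map]
    · congr 2
      funext x
      rcases x with q | j | i
      · exact (hK q).symm
      · rfl
      · rfl
    · intro x hx
      obtain ⟨y, _, rfl⟩ := List.mem_map.1 hx
      rcases y with q | j | i
      · exact hKB q
      · exact hw j
      · exact hz i
  apply Subset.antisymm
  · rintro z' ⟨z1, z2, z3, z4, z5⟩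
    have hex : ∀ i, ∃ x ∈ BB f, F x = z' i := fun i => hF.1.surjOn (z2 i)
    choose z hz hzz using hex
    refine ⟨z, ⟨?_, hz, ?_, ?_, ?_⟩, funext hzz⟩
    · intro i j h
      apply z1
      rw [← hzz, ← hzz, h]
    · intro i q h
      apply z3 i q
      rw [← hzz, h, hK]
    · intro i j h
      apply z4 i j
      rw [← hzz, h]
    · intro l
      rw [← hev z hz l, ← z5 l]
      congr 3
      funext i
      exact hzz i
  · rintro _ ⟨z, ⟨z1, z2, z3, z4, z5⟩, rfl⟩
    refine ⟨?_, ?_, ?_, ?_, ?_⟩
    · intro i j h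
      exact z1 (hF.1.injOn (z2 i) (z2 j) h)
    · intro i
      exact hF.1.mapsTo (z2 i)
    · intro i q h
      apply z3 i q
      have h' : F (z i) = Kc q := h
      rw [← hK q] at h'
      exact hF.1.injOn (z2 i) (hKB q) h'
    · intro i j h
      exact z4 i j (hF.1.injOn (z2 i) (hw j) h)
    · intro l
      rw [← z5 l]
      exact hev z z2 l

/-- a rapidly increasing sequence -/
def NN (b a : ℕ) : ℕ → ℕ
  | 0 => (b * b + b * a) ^ a + 1
  | (i + 1) => (b * b + b * a + (NN b a i + 1) * NN b a i * a) ^ a + b + NN b a i + 1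

lemma NN_succ (b a i : ℕ) : NN b a (i + 1) =
    (b * b + b * a + (NN b a i + 1) * NN b a i * a) ^ a + b + NN b a i + 1 := rfl

lemma NN_mono (b a : ℕ) : StrictMono (NN b a) := by
  apply strictMono_nat_of_lt_succ
  intro i
  rw [NN_succ]
  omega

lemma NN_pos (b a i : ℕ) : (b * b + b * a) ^ a < NN b a i := by
  have h1 : (b * b + b * a) ^ a < NN b a 0 := by
    rw [NN]
    omega
  exact h1.trans_le ((NN_mono b a).monotone (Nat.zero_le i))

/-- the function coded by `x` -/
def ff (b a : ℕ) (x : ℕ → Bool) : ℕ → ℕ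
  | 0 => 0
  | (n + 1) => NN b a (2 * n + (x n).toNat)

lemma ff_mono (b a : ℕ) (x : ℕ → Bool) : StrictMono (ff b a x) := by
  apply strictMono_nat_of_lt_succ
  intro n
  rcases n with _ | n
  · show 0 < NN b a _
    exact (Nat.zero_le _).trans_lt (NN_pos b a _)
  · show NN b a _ < NN b a _
    apply NN_mono
    have h1 : (x n).toNat ≤ 1 := Bool.toNat_le _
    omega

end

theorem AR : T_AR := by
  classical
  intro M C c a0 ha0
  have hex : ∃ a, ArrCfg c a := ⟨a0, ha0⟩
  obtain ⟨a, ⟨k, b, e, hbe, hinv, l0, hl0⟩, hmin⟩ : ∃ a, ArrCfg c a ∧ ∀ a' < a, ¬ ArrCfg c a' :=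
    ⟨Nat.find hex, Nat.find_spec hex, fun a' h => Nat.find_min hex h⟩
  have ha : 1 ≤ a := by
    by_contra h
    have h0 : a = 0 := by omega
    apply hl0
    congr 2
    funext x
    rcases x with y | i | i
    · rfl
    · rfl
    · exact absurd i.2 (by omega)
  refine ⟨Arr k b a, inferInstance, e, Finset.univ.image Kc, fun x => BB (ff b a x), hbe,
    ?_, ?_, ?_, ?_⟩
  · intro y
    rcases y with y | ⟨n, y | ⟨j, t⟩⟩
    · have : {x | (Sum.inl y : Arr k b a) ∈ BB (ff b a x)} = univ := by
        refine eq_univ_of_forall fun x n j t h => ?_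
        exact absurd h (by simp)
      rw [this]
      exact MeasurableSet.univ
    · have : {x | (Sum.inr (n, Sum.inl y) : Arr k b a) ∈ BB (ff b a x)} = univ := by
        refine eq_univ_of_forall fun x n j t h => ?_
        exact absurd h (by simp)
      rw [this]
      exact MeasurableSet.univ
    · rcases n with _ | n
      · have : {x | (Sum.inr (0, Sum.inr (j, t)) : Arr k b a) ∈ BB (ff b a x)} = ∅ := by
          refine eq_empty_of_forall_notMem fun x h => ?_
          have := (h 0 j t rfl).1
          omega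
        rw [this]
        exact MeasurableSet.empty
      · have : {x | (Sum.inr (n + 1, Sum.inr (j, t)) : Arr k b a) ∈ BB (ff b a x)}
            = (fun x : ℕ → Bool => x n) ⁻¹' {v | j < NN b a (2 * n + v.toNat)} := by
          ext x
          constructor
          · intro h
            exact (h (n + 1) j t rfl).2
          · intro h n' j' t' h'
            have h1 := Sum.inr.inj h'
            rw [Prod.mk.injEq] at h1
            have h2 := Sum.inr.inj h1.2
            rw [Prod.mk.injEq] at h2
            rw [← h1.1, ← h2.1]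
            exact ⟨by omega, h⟩
        rw [this]
        exact (measurable_pi_apply n) (MeasurableSet.of_discrete)
  · intro x
    refine Set.infinite_of_injective_forall_mem
      (f := fun n : ℕ => (Sum.inr (n + 1, Sum.inr (0, ⟨0, ha⟩)) : Arr k b a)) ?_ ?_
    · intro n n' h
      have h1 := Sum.inr.inj h
      rw [Prod.mk.injEq] at h1
      omega
    · intro n n' j' t' h'
      have h1 := Sum.inr.inj h'
      rw [Prod.mk.injEq] at h1
      have h2 := Sum.inr.inj h1.2
      rw [Prod.mk.injEq] at h2
      rw [← h1.1, ← h2.1]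
      exact ⟨by omega, (Nat.zero_le _).trans_lt (NN_pos b a _)⟩
  · intro x y hy
    rw [Finset.mem_coe, Finset.mem_image] at hy
    obtain ⟨q, _, rfl⟩ := hy
    rcases q with q | q
    · intro n j t h
      exact absurd h (by simp [Kc])
    · intro n j t h
      exact absurd h (by simp [Kc])
  · intro x
    refine (Set.countable_singleton x).mono ?_
    rintro y ⟨F, hF, hFK⟩
    have hK : ∀ q, F (Kc q) = Kc q := fun q =>
      hFK _ (Finset.mem_image_of_mem _ (Finset.mem_univ q))
    rw [mem_singleton_iff]
    funext n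
    have hn : 1 ≤ n + 1 := by omega
    obtain ⟨h1, h2, h3⟩ := zz_own hmin hbe hinv l0 hl0 (ff b a x) hn ha
    have hE : ∀ i, (En (n + 1) i : Arr k b a) ∈ BB (ff b a x) := by
      intro i n' j t h
      exact absurd h (by simp [En])
    have hiso := zz_iso hF hK hE
    have hinj : InjOn (fun (z : Fin a → Arr k b a) i => F (z i)) (ZZ e (ff b a x) (En (n + 1))) := by
      intro z hz z' hz' h
      funext i
      exact hF.1.injOn (hz.2.1 i) (hz'.2.1 i) (congrFun h i)
    have hcard : (ZZ e (ff b a y) (fun i => F (En (n + 1) i))).ncard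
        = (ZZ e (ff b a x) (En (n + 1))).ncard := by
      rw [hiso, hinj.ncard_image]
    have hfin : (ZZ e (ff b a y) (fun i => F (En (n + 1) i))).Finite := by
      rw [hiso]
      exact h1.image _
    have hwK : ∀ i q, F (En (n + 1) i) ≠ Kc q := by
      intro i q h
      rw [← hK q] at h
      have h4 := hF.1.injOn (hE i) (by
        rcases q with q | q
        · intro n j t h
          exact absurd h (by simp [Kc])
        · intro n j t h
          exact absurd h (by simp [Kc])) h
      rcases q with q | q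
      · exact absurd h4 (by simp [Kc, En])
      · exact absurd h4 (by simp [Kc, En])
    have hgen := zz_gen hinv (ff_mono b a y) (fun i => hF.1.mapsTo (hE i)) hwK hfin
    rw [hcard] at hgen
    have h5 : ff b a x (n + 1) = NN b a (2 * n + (x n).toNat) := rfl
    rcases hgen with hgen | ⟨r, hr1, hr2, hr3⟩
    · have := NN_pos b a (2 * n + (x n).toNat)
      omega
    · obtain ⟨r, rfl⟩ : ∃ r', r = r' + 1 := ⟨r - 1, by omega⟩
      have h6 : ff b a y (r + 1) = NN b a (2 * r + (y r).toNat) := rfl
      rw [h6] at hr2 hr3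
      rw [h5] at h2 h3
      set i := 2 * n + (x n).toNat with hi
      set i' := 2 * r + (y r).toNat with hi'
      have c1 : i ≤ i' := by
        by_contra hlt
        have h7 : NN b a (i' + 1) ≤ NN b a i := (NN_mono b a).monotone (by omega)
        rw [NN_succ] at h7
        omega
      have c2 : i' < i + 1 := by
        rw [← (NN_mono b a).lt_iff_lt, NN_succ]
        have h8 : (NN b a i * a) ^ a ≤ (b * b + b * a + (NN b a i + 1) * NN b a i * a) ^ a := by
          apply Nat.pow_le_pow_left
          have : NN b a i * a ≤ (NN b a i + 1) * NN b a i * a := by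
            apply Nat.mul_le_mul_right
            nlinarith [Nat.zero_le (NN b a i)]
          omega
        omega
      have b1 : (x n).toNat ≤ 1 := Bool.toNat_le _
      have b2 : (y r).toNat ≤ 1 := Bool.toNat_le _
      have hrn : r = n := by omega
      subst hrn
      have hxy : (x r).toNat = (y r).toNat := by omega
      cases hx : x r <;> cases hy : y r <;> simp_all

end Pool.Agent.H34.UV
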