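import Pool.Agent.H72.UV.Targets
import Pool.Agent.H72.UV.Basic

/-!
# UV, module CMP: sets closed under edges are independent from everything else
-/

set_option autoImplicit false

open Set Filter Topology

namespace Pool.Agent.H34.UV

open Pool.Agent.H72.UV

lemma TT_refl {M C ν : Type} (c : Str M C) (K : Set M) (W : Set ν) (x : ν → M) :
    TT c K W x x := fun _ _ _ _ _ _ _ => Eventually.of_forall fun _ => rfl

lemma ind_empty {M C ν : Type} (c : Str M C) (K : Set M) (x : ν → M) (T : Set ν) :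
    Ind c K x ∅ T := by
  classical
  refine ⟨pure x, ⟨fun i hi => absurd hi (notMem_empty i), fun i hi => absurd hi (notMem_empty i)⟩,
    Eventually.of_forall fun u => ?_⟩
  rw [Set.piecewise_empty]
  exact TT_refl _ _ _ _

theorem CMP (hcalc : T_CALC) : T_CMP := by
  intro M C c m K F hgood hout Z hZ hedge
  have hc := hcalc M C c m K hgood
  suffices H : ∀ (n : ℕ) (A B : Set M), A.ncard + B.ncard = n → A.Finite → B.Finite → A ⊆ Z →
      Disjoint B Z → Disjoint B K → A.ncard + B.ncard ≤ m → Ind c K (id : M → M) A B from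
    fun A B => H _ A B rfl
  intro n
  induction n using Nat.strong_induction_on with
  | _ n ih =>
  intro A B hn hA hB hAZ hBZ hBK hm
  rcases A.eq_empty_or_nonempty with rfl | hAne
  · exact ind_empty _ _ _ _
  rcases B.eq_empty_or_nonempty with rfl | hBne
  · exact hout.2 A hA (by simpa using hm) (hZ.mono_left hAZ)
  obtain ⟨a, ha⟩ := hAne
  obtain ⟨b, hb⟩ := hBne
  have hABf : (A ∪ B).Finite := hA.union hB
  have hAB : Disjoint A B := (hBZ.mono_right hAZ).symm
  set W : Finset M := hABf.toFinset with hW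
  have hWc : (W : Set M) = A ∪ B := hABf.coe_toFinset
  have hWm : ∀ x, x ∈ W ↔ x ∈ A ∨ x ∈ B := by
    intro x
    rw [hW, Finite.mem_toFinset]
    rfl
  have hbZ : b ∉ Z := fun h => disjoint_left.1 hBZ hb h
  have hnot : W ∉ Edges m c K := by
    intro h
    exact hbZ (hedge W h ⟨a, (hWm a).2 (Or.inl ha), hAZ ha⟩ b ((hWm b).2 (Or.inr hb)))
  have hcard : W.card ≤ m := by
    have h1 : W.card = (A ∪ B).ncard := by
      rw [← hWc, ncard_coe_finset]
    rw [h1]
    exact (ncard_union_le A B).trans hm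
  have hind : ¬ Indec c K W := fun h => hnot ⟨hcard, h⟩
  have hWK : ∀ x ∈ W, x ∉ K := by
    intro x hx hxK
    rcases (hWm x).1 hx with h | h
    · exact disjoint_left.1 hZ (hAZ h) (Or.inl hxK)
    · exact disjoint_left.1 hBK h hxK
  obtain ⟨S, T, hST, hdis, hS, hT, hI⟩ : ∃ S T : Set M, S ∪ T = (W : Set M) ∧ Disjoint S T ∧
      S.Nonempty ∧ T.Nonempty ∧ Ind c K (id : M → M) S T := by
    by_contra hcon
    apply hind
    refine ⟨⟨a, (hWm a).2 (Or.inl ha)⟩, hWK, ?_⟩
    intro S T h1 h2 h3 h4 h5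
    exact hcon ⟨S, T, h1, h2, h3, h4, h5⟩
  rw [hWc] at hST
  -- the parts
  have eS : (A ∩ S) ∪ (B ∩ S) = S := by
    rw [← union_inter_distrib_right, ← hST]
    exact inter_eq_right.2 subset_union_left
  have eT : (A ∩ T) ∪ (B ∩ T) = T := by
    rw [← union_inter_distrib_right, ← hST]
    exact inter_eq_right.2 subset_union_right
  have eA : (A ∩ S) ∪ (A ∩ T) = A := by
    rw [← inter_union_distrib_left, hST]
    exact inter_eq_left.2 subset_union_left
  have eB : (B ∩ S) ∪ (B ∩ T) = B := by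
    rw [← inter_union_distrib_left, hST]
    exact inter_eq_left.2 subset_union_right
  have dA : Disjoint (A ∩ S) (A ∩ T) := hdis.mono inter_subset_right inter_subset_right
  have dB : Disjoint (B ∩ S) (B ∩ T) := hdis.mono inter_subset_right inter_subset_right
  have dSS : Disjoint (A ∩ S) (B ∩ S) := hAB.mono inter_subset_left inter_subset_left
  have dTT : Disjoint (A ∩ T) (B ∩ T) := hAB.mono inter_subset_left inter_subset_left
  have dST : Disjoint (A ∩ S) (B ∩ T) := hAB.mono inter_subset_left inter_subset_left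
  have dTS : Disjoint (A ∩ T) (B ∩ S) := hAB.mono inter_subset_left inter_subset_left
  have nA : (A ∩ S).ncard + (A ∩ T).ncard = A.ncard := by
    conv_rhs => rw [← eA]
    rw [ncard_union_eq dA (hA.inter_of_left _) (hA.inter_of_left _)]
  have nB : (B ∩ S).ncard + (B ∩ T).ncard = B.ncard := by
    conv_rhs => rw [← eB]
    rw [ncard_union_eq dB (hB.inter_of_left _) (hB.inter_of_left _)]
  have nS : 0 < (A ∩ S).ncard + (B ∩ S).ncard := by
    rw [← ncard_union_eq dSS (hA.inter_of_left _) (hB.inter_of_left _), eS]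
    exact (ncard_pos (hABf.subset (hST ▸ subset_union_left))).2 hS
  have nT : 0 < (A ∩ T).ncard + (B ∩ T).ncard := by
    rw [← ncard_union_eq dTT (hA.inter_of_left _) (hB.inter_of_left _), eT]
    exact (ncard_pos (hABf.subset (hST ▸ subset_union_right))).2 hT
  have fAS := hA.inter_of_left S
  have fAT := hA.inter_of_left T
  have fBS := hB.inter_of_left S
  have fBT := hB.inter_of_left T
  have iS : Ind c K (id : M → M) (A ∩ S) (B ∩ S) :=
    ih _ (by omega) (A ∩ S) (B ∩ S) rfl fAS fBS (inter_subset_left.trans hAZ)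
      (hBZ.mono_left inter_subset_left) (hBK.mono_left inter_subset_left) (by omega)
  have iT : Ind c K (id : M → M) (A ∩ T) (B ∩ T) :=
    ih _ (by omega) (A ∩ T) (B ∩ T) rfl fAT fBT (inter_subset_left.trans hAZ)
      (hBZ.mono_left inter_subset_left) (hBK.mono_left inter_subset_left) (by omega)
  have h1 : Ind c K (id : M → M) ((A ∩ S) ∪ (B ∩ S)) ((A ∩ T) ∪ (B ∩ T)) := by
    rw [eS, eT]; exact hI
  have dW1 : Disjoint (A ∩ S) ((A ∩ T) ∪ (B ∩ T)) := disjoint_union_right.2 ⟨dA, dST⟩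
  have dW2 : Disjoint (B ∩ S) ((A ∩ T) ∪ (B ∩ T)) := disjoint_union_right.2 ⟨dTS.symm, dB⟩
  have h2 : Ind c K (id : M → M) (A ∩ S) ((B ∩ S) ∪ ((A ∩ T) ∪ (B ∩ T))) :=
    hc.i4 M id (A ∩ S) (B ∩ S) ((A ∩ T) ∪ (B ∩ T)) fAS fBS (fAT.union fBT) dSS dW1 dW2 h1 iS
  have h3 : Ind c K (id : M → M) (B ∩ S) ((A ∩ T) ∪ (B ∩ T)) :=
    hc.res M id ((A ∩ S) ∪ (B ∩ S)) ((A ∩ T) ∪ (B ∩ T)) (B ∩ S) ((A ∩ T) ∪ (B ∩ T))
      (disjoint_union_left.2 ⟨dW1, dW2⟩) subset_union_right (le_refl _) h1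
  have h4 : Ind c K (id : M → M) (A ∩ T) ((B ∩ S) ∪ (B ∩ T)) :=
    hc.i5 M id (A ∩ T) (B ∩ S) (B ∩ T) fAT fBS fBT dTS dTT dB h3 iT
  have h5 : (B ∩ S) ∪ ((A ∩ T) ∪ (B ∩ T)) = (A ∩ T) ∪ ((B ∩ S) ∪ (B ∩ T)) := by
    ext x
    simp only [mem_union]
    tauto
  rw [h5] at h2
  have h6 : Ind c K (id : M → M) ((A ∩ S) ∪ (A ∩ T)) ((B ∩ S) ∪ (B ∩ T)) :=
    hc.i3 M id (A ∩ S) (A ∩ T) ((B ∩ S) ∪ (B ∩ T)) fAS fAT (fBS.union fBT) dA
      (disjoint_union_right.2 ⟨dSS, dST⟩) (disjoint_union_right.2 ⟨dTS, dTT⟩) h2 h4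
  rwa [eA, eB] at h6

end Pool.Agent.H34.UV
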