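import Pool.Agent.H72.UV.Targets
import Pool.Agent.H72.UV.Basic

/-!
# UV, module OWN: in arrays with minimal `a`, only tuples inside the cells of a row feel the row
-/

set_option autoImplicit false

open Set Filter Topology

namespace Pool.Agent.H34.UV

open Pool.Agent.H72.UV

/-- the row of an element -/
def rowOf {k b a : ℕ} : Arr k b a → ℕ
  | Sum.inl _ => 0
  | Sum.inr (r, _) => r

/-- the embedding of the small array -/
def psi {k b a k' a' : ℕ} (y : Fin k' → Arr k b a) (φ : ℕ → ℕ) (B : ℕ) (jj : Fin a' → ℕ)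
    (cc : Fin a' → Fin a) : Arr k' b a' → Arr k b a
  | Sum.inl i => y i
  | Sum.inr (r, Sum.inl i) => Sum.inr (φ r, Sum.inl i)
  | Sum.inr (r, Sum.inr (J, i)) => Sum.inr (φ r, Sum.inr (J * B + jj i, cc i))

lemma divmod {J B j J' j' : ℕ} (hj : j < B) (hj' : j' < B) (h : J * B + j = J' * B + j') :
    J = J' ∧ j = j' := by
  have hB : 0 < B := by omega
  have h1 : (J * B + j) / B = J := by
    rw [Nat.mul_comm, Nat.mul_add_div hB, Nat.div_eq_of_lt hj, Nat.add_zero]
  have h2 : (J' * B + j') / B = J' := by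
    rw [Nat.mul_comm, Nat.mul_add_div hB, Nat.div_eq_of_lt hj', Nat.add_zero]
  have h3 : J = J' := by rw [← h1, h, h2]
  subst h3
  exact ⟨rfl, by omega⟩

theorem OWN : T_OWN := by
  classical
  intro M C c a hmin k b e hbe hinv l n n' z hnn hz hz1 hz2 hne
  by_contra hcon
  rw [not_forall] at hcon
  obtain ⟨i0, hi0⟩ := hcon
  apply hne
  set S : Set (Fin a) := {i | ∃ j t, z i = Sum.inr (n, Sum.inr (j, t))} with hS
  have hi0S : i0 ∉ S := hi0
  set a' := Fintype.card S with ha'
  have haa : a' < a := by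
    have h1 : Fintype.card S < Fintype.card (Fin a) :=
      Fintype.card_subtype_lt (p := fun i => i ∈ S) hi0S
    rwa [Fintype.card_fin] at h1
  set s : S ≃ Fin a' := Fintype.equivFin S with hs
  have hex : ∀ i : Fin a', ∃ j t, z (s.symm i) = Sum.inr (n, Sum.inr (j, t)) :=
    fun i => (s.symm i).2
  choose jj cc hjc using hex
  obtain ⟨B, hB⟩ : ∃ B, ∀ i, jj i < B := by
    refine ⟨(∑ i, jj i) + 1, fun i => Nat.lt_succ_of_le ?_⟩
    exact Finset.single_le_sum (f := jj) (fun _ _ => Nat.zero_le _) (Finset.mem_univ i)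
  have hzS : ∀ i, i ∉ S → ∀ x, z i ≠ Sum.inr (n, x) := by
    intro i hi x hx
    rcases x with x | ⟨j, t⟩
    · exact hz2 i x hx
    · exact hi ⟨j, t, hx⟩
  set Y : Finset (Arr k b a) := (Finset.univ.image fun y : Fin k => (Sum.inl y : Arr k b a)) ∪
    ((Finset.univ.filter fun i => i ∉ S).image z) with hY
  have hYc : ∀ y : Fin k, (Sum.inl y : Arr k b a) ∈ Y := by
    intro y
    rw [hY, Finset.mem_union]
    left
    exact Finset.mem_image_of_mem _ (Finset.mem_univ y)
  have hYz : ∀ i, i ∉ S → z i ∈ Y := by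
    intro i hi
    rw [hY, Finset.mem_union]
    right
    exact Finset.mem_image_of_mem _ (Finset.mem_filter.2 ⟨Finset.mem_univ i, hi⟩)
  have hYn : ∀ w ∈ Y, ∀ x, w ≠ Sum.inr (n, x) ∧ w ≠ Sum.inr (n', x) := by
    intro w hw x
    rw [hY, Finset.mem_union] at hw
    rcases hw with hw | hw
    · obtain ⟨y, _, rfl⟩ := Finset.mem_image.1 hw
      exact ⟨by simp, by simp⟩
    · obtain ⟨i, hi, rfl⟩ := Finset.mem_image.1 hw
      exact ⟨hzS i (Finset.mem_filter.1 hi).2 x, hz1 i x⟩
  -- the rows
  obtain ⟨N, hN1, hN2, hN3⟩ : ∃ N, n < N ∧ n' < N ∧ ∀ w ∈ Y, rowOf w < N := by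
    refine ⟨n + n' + (∑ w ∈ Y, rowOf w) + 1, by omega, by omega, fun w hw => ?_⟩
    have := Finset.single_le_sum (f := rowOf) (fun _ _ => Nat.zero_le _) hw
    omega
  set φ : ℕ → ℕ := fun r => if r = 0 then n else if r = 1 then n' else N + r with hφ
  have hφ0 : φ 0 = n := by simp [hφ]
  have hφ1 : φ 1 = n' := by simp [hφ]
  have hφi : Function.Injective φ := by
    intro r r' h
    simp only [hφ] at h
    split_ifs at h <;> omega
  have hYφ : ∀ w ∈ Y, ∀ r x, w ≠ Sum.inr (φ r, x) := by
    intro w hw r x h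
    have h1 := hN3 w hw
    have h2 := hYn w hw x
    rw [h] at h1 h2
    simp only [rowOf, hφ] at h1
    by_cases hr0 : r = 0
    · rw [hr0, hφ0] at h2
      exact h2.1 rfl
    · by_cases hr1 : r = 1
      · rw [hr1, hφ1] at h2
        exact h2.2 rfl
      · rw [if_neg hr0, if_neg hr1] at h1
        omega
  set k' := Fintype.card Y with hk'
  set q : Y ≃ Fin k' := Fintype.equivFin Y with hq
  set ψ : Arr k' b a' → Arr k b a := psi (fun i => ((q.symm i : Y) : Arr k b a)) φ B jj cc with hψ
  have hψi : Function.Injective ψ := by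
    rintro (y | ⟨r, i | ⟨J, i⟩⟩) (y' | ⟨r', i' | ⟨J', i'⟩⟩) h
    · have h1 : (q.symm y : Arr k b a) = q.symm y' := h
      rw [q.symm.injective (Subtype.ext h1)]
    · exact absurd h (hYφ _ (q.symm y).2 r' _)
    · exact absurd h (hYφ _ (q.symm y).2 r' _)
    · exact absurd h.symm (hYφ _ (q.symm y').2 r _)
    · have h1 := Sum.inr.inj h
      rw [Prod.mk.injEq] at h1
      rw [hφi h1.1, Sum.inl.inj h1.2]
    · have h1 := Sum.inr.inj h
      rw [Prod.mk.injEq] at h1
      exact absurd h1.2 (by simp)
    · exact absurd h.symm (hYφ _ (q.symm y').2 r _)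
    · have h1 := Sum.inr.inj h
      rw [Prod.mk.injEq] at h1
      exact absurd h1.2 (by simp)
    · have h1 := Sum.inr.inj h
      rw [Prod.mk.injEq] at h1
      have h2 := Sum.inr.inj h1.2
      rw [Prod.mk.injEq] at h2
      have h3 := divmod (hB i) (hB i') h2.1
      have h4 : z (s.symm i) = z (s.symm i') := by
        rw [hjc, hjc, h3.2, h2.2]
      have h5 : s.symm i = s.symm i' := Subtype.ext (hz h4)
      rw [hφi h1.1, h3.1, s.symm.injective h5]
  -- the structure on the small array
  set e' : Str (Arr k' b a') C := fun l => e (l.map ψ) with he'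
  have hbe' : Below e' c := hbe.comap hψi
  have hinv' : ArrInv e' := by
    constructor
    · intro l f hf
      set fh : ℕ → ℕ := Function.extend φ (φ ∘ f) id with hfh
      have hf1 : ∀ r, fh (φ r) = φ (f r) := fun r => hφi.extend_apply _ _ r
      have hf2 : ∀ x, (¬ ∃ r, φ r = x) → fh x = x := fun x hx => Function.extend_apply' _ _ x hx
      have hfi : Function.Injective fh := by
        intro x x' h
        by_cases hx : ∃ r, φ r = x
        · obtain ⟨r, rfl⟩ := hx
          by_cases hx' : ∃ r, φ r = x'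
          · obtain ⟨r', rfl⟩ := hx'
            rw [hf1, hf1] at h
            rw [hf (hφi h)]
          · rw [hf1, hf2 _ hx'] at h
            exact absurd ⟨_, h⟩ hx'
        · by_cases hx' : ∃ r, φ r = x'
          · obtain ⟨r', rfl⟩ := hx'
            rw [hf1, hf2 _ hx] at h
            exact absurd ⟨_, h.symm⟩ hx
          · rwa [hf2 _ hx, hf2 _ hx'] at h
      have hcomm : ψ ∘ rowMap f = rowMap fh ∘ ψ := by
        funext x
        rcases x with y | ⟨r, i | ⟨J, i⟩⟩
        · show (q.symm y : Arr k b a) = rowMap fh (q.symm y : Arr k b a)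
          have h1 := hYφ _ (q.symm y).2
          generalize (q.symm y : Arr k b a) = w at h1
          rcases w with w | ⟨r, w⟩
          · rfl
          · show _ = Sum.inr (fh r, w)
            rw [hf2 r (by
              rintro ⟨r', hr'⟩
              exact h1 r' w (by rw [hr']))]
        · show (Sum.inr (φ (f r), Sum.inl i) : Arr k b a) = Sum.inr (fh (φ r), Sum.inl i)
          rw [hf1]
        · show (Sum.inr (φ (f r), Sum.inr (J * B + jj i, cc i)) : Arr k b a)
            = Sum.inr (fh (φ r), Sum.inr (J * B + jj i, cc i))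
          rw [hf1]
      show e ((l.map (rowMap f)).map ψ) = e (l.map ψ)
      rw [List.map_map, hcomm, ← List.map_map, hinv.1 _ fh hfi]
    · intro l g hg
      set gh : ℕ → ℕ → ℕ := Function.extend φ (fun r x => g r (x / B) * B + x % B)
        (fun _ => id) with hgh
      have hg1 : ∀ r, gh (φ r) = fun x => g r (x / B) * B + x % B :=
        fun r => hφi.extend_apply _ _ r
      have hg2 : ∀ x, (¬ ∃ r, φ r = x) → gh x = id := fun x hx => Function.extend_apply' _ _ x hx
      rcases Nat.eq_zero_or_pos a' with ha0 | hapos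
      · -- no cells
        have hcell : ∀ x : Arr k' b a', cellMap g x = x := by
          intro x
          rcases x with y | ⟨r, i | ⟨J, i⟩⟩
          · rfl
          · rfl
          · exact absurd i.2 (by omega)
        have : (cellMap g : Arr k' b a' → Arr k' b a') = id := funext hcell
        rw [this, List.map_id]
      have hBpos : 0 < B := (Nat.zero_le _).trans_lt (hB ⟨0, hapos⟩)
      have hgi : ∀ x, Function.Injective (gh x) := by
        intro x
        by_cases hx : ∃ r, φ r = x
        · obtain ⟨r, rfl⟩ := hx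
          rw [hg1]
          intro u u' h
          have h1 := divmod (Nat.mod_lt u hBpos) (Nat.mod_lt u' hBpos) h
          have h2 := hg r h1.1
          rw [← Nat.div_add_mod u B, ← Nat.div_add_mod u' B, h2, h1.2]
        · rw [hg2 _ hx]
          exact Function.injective_id
      have hcomm : ψ ∘ cellMap g = cellMap gh ∘ ψ := by
        funext x
        rcases x with y | ⟨r, i | ⟨J, i⟩⟩
        · show (q.symm y : Arr k b a) = cellMap gh (q.symm y : Arr k b a)
          have h1 := hYφ _ (q.symm y).2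
          generalize (q.symm y : Arr k b a) = w at h1
          rcases w with w | ⟨r, w | ⟨j, w⟩⟩
          · rfl
          · rfl
          · show _ = Sum.inr (r, Sum.inr (gh r j, w))
            rw [hg2 r (by
              rintro ⟨r', hr'⟩
              exact h1 r' (Sum.inr (j, w)) (by rw [hr']))]
            rfl
        · rfl
        · show (Sum.inr (φ r, Sum.inr (g r J * B + jj i, cc i)) : Arr k b a)
            = Sum.inr (φ r, Sum.inr (gh (φ r) (J * B + jj i), cc i))
          rw [hg1]
          have h1 : (J * B + jj i) / B = J := by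
            rw [Nat.mul_comm, Nat.mul_add_div hBpos, Nat.div_eq_of_lt (hB i), Nat.add_zero]
          have h2 : (J * B + jj i) % B = jj i := by
            rw [Nat.mul_comm, Nat.mul_add_mod, Nat.mod_eq_of_lt (hB i)]
          simp only [h1, h2]
      show e ((l.map (cellMap g)).map ψ) = e (l.map ψ)
      rw [List.map_map, hcomm, ← List.map_map, hinv.2 _ gh hgi]
  -- use minimality
  have hno : ∀ l' : List (Fin k' ⊕ (Fin b ⊕ Fin a')), e' (l'.map (own 0)) = e' (l'.map (own 1)) := by
    intro l'
    by_contra h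
    exact hmin a' haa ⟨k', b, e', hbe', hinv', l', h⟩
  set τ : Fin k ⊕ (Fin b ⊕ Fin a) → Fin k' ⊕ (Fin b ⊕ Fin a') := fun x =>
    Sum.elim (fun y => Sum.inl (q ⟨Sum.inl y, hYc y⟩))
      (Sum.elim (fun i => Sum.inr (Sum.inl i))
        (fun i => if h : i ∈ S then Sum.inr (Sum.inr (s ⟨i, h⟩)) else Sum.inl (q ⟨z i, hYz i h⟩)))
      x with hτ
  have key := hno (l.map τ)
  have e1 : ψ ∘ own 0 ∘ τ = evz n z := by
    funext x
    rcases x with y | i | i
    · show ((q.symm (q ⟨Sum.inl y, hYc y⟩) : Y) : Arr k b a) = Sum.inl y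
      rw [Equiv.symm_apply_apply]
    · show (Sum.inr (φ 0, Sum.inl i) : Arr k b a) = Sum.inr (n, Sum.inl i)
      rw [hφ0]
    · show ψ (own 0 (τ (Sum.inr (Sum.inr i)))) = z i
      by_cases hi : i ∈ S
      · have h1 : τ (Sum.inr (Sum.inr i)) = Sum.inr (Sum.inr (s ⟨i, hi⟩)) := by
          simp only [hτ, Sum.elim_inr]
          rw [dif_pos hi]
        rw [h1]
        show (Sum.inr (φ 0, Sum.inr (0 * B + jj (s ⟨i, hi⟩), cc (s ⟨i, hi⟩))) : Arr k b a) = z i
        have h2 := hjc (s ⟨i, hi⟩)
        rw [Equiv.symm_apply_apply] at h2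
        rw [hφ0, Nat.zero_mul, Nat.zero_add]
        exact h2.symm
      · have h1 : τ (Sum.inr (Sum.inr i)) = Sum.inl (q ⟨z i, hYz i hi⟩) := by
          simp only [hτ, Sum.elim_inr]
          rw [dif_neg hi]
        rw [h1]
        show ((q.symm (q ⟨z i, hYz i hi⟩) : Y) : Arr k b a) = z i
        rw [Equiv.symm_apply_apply]
  have e2 : rowMap (Equiv.swap n n') ∘ ψ ∘ own 1 ∘ τ = evz n' z := by
    have hfix : ∀ w : Arr k b a, (∀ x, w ≠ Sum.inr (n, x) ∧ w ≠ Sum.inr (n', x)) →
        rowMap (Equiv.swap n n') w = w := by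
      intro w hw
      rcases w with w | ⟨r, w⟩
      · rfl
      · show (Sum.inr (Equiv.swap n n' r, w) : Arr k b a) = _
        have h1 : r ≠ n := fun h => (hw w).1 (by rw [h])
        have h2 : r ≠ n' := fun h => (hw w).2 (by rw [h])
        rw [Equiv.swap_apply_of_ne_of_ne h1 h2]
    funext x
    rcases x with y | i | i
    · show rowMap (Equiv.swap n n') ((q.symm (q ⟨Sum.inl y, hYc y⟩) : Y) : Arr k b a) = Sum.inl y
      rw [Equiv.symm_apply_apply]
      rfl
    · show (Sum.inr (Equiv.swap n n' (φ 0), Sum.inl i) : Arr k b a) = Sum.inr (n', Sum.inl i)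
      rw [hφ0, Equiv.swap_apply_left]
    · show rowMap (Equiv.swap n n') (ψ (own 1 (τ (Sum.inr (Sum.inr i))))) = z i
      by_cases hi : i ∈ S
      · have h1 : τ (Sum.inr (Sum.inr i)) = Sum.inr (Sum.inr (s ⟨i, hi⟩)) := by
          simp only [hτ, Sum.elim_inr]
          rw [dif_pos hi]
        rw [h1]
        show (Sum.inr (Equiv.swap n n' (φ 1),
          Sum.inr (0 * B + jj (s ⟨i, hi⟩), cc (s ⟨i, hi⟩))) : Arr k b a) = z i
        have h2 := hjc (s ⟨i, hi⟩)
        rw [Equiv.symm_apply_apply] at h2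
        rw [hφ1, Nat.zero_mul, Nat.zero_add, Equiv.swap_apply_right]
        exact h2.symm
      · have h1 : τ (Sum.inr (Sum.inr i)) = Sum.inl (q ⟨z i, hYz i hi⟩) := by
          simp only [hτ, Sum.elim_inr]
          rw [dif_neg hi]
        rw [h1]
        show rowMap (Equiv.swap n n') ((q.symm (q ⟨z i, hYz i hi⟩) : Y) : Arr k b a) = z i
        rw [Equiv.symm_apply_apply]
        exact hfix _ (hYn _ (hYz i hi))
  have f1 : e' ((l.map τ).map (own 0)) = e (l.map (evz n z)) := by
    show e (((l.map τ).map (own 0)).map ψ) = _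
    rw [List.map_map, List.map_map, ← e1]
    rfl
  have f2 : e' ((l.map τ).map (own 1)) = e (l.map (evz n' z)) := by
    show e (((l.map τ).map (own 1)).map ψ) = _
    rw [← hinv.1 _ (Equiv.swap n n') (Equiv.injective _), List.map_map, List.map_map, List.map_map,
      ← e2]
    rfl
  rw [← f1, key, f2]

end Pool.Agent.H34.UV
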